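import Pool.Agent.K3h13.SZ.Fac2

namespace Pool.Agent.K3h13.SZ

open Polynomial Pool.Agent.W318 Pool.Agent.Y678.SZ Pool.Agent.K3h74.SZ Finset NumberField
  IsDedekindDomain WithZero

theorem exists_fin_roots {M : Type*} [Field M] {k : ℕ} {Q : M[X]} (hQ : Q.Monic)
    (hd : Q.natDegree = k) (hs : Q.Splits) : ∃ U : Fin k → M, Q = ∏ i, (X - C (U i)) := by
  have h1 := hs.eq_prod_roots_of_monic hQ
  have h2 : Multiset.card Q.roots = k := by rw [← hs.natDegree_eq_card_roots, hd]
  obtain ⟨L, hL⟩ : ∃ L : List M, (L : Multiset M) = Q.roots := Quot.exists_rep _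
  rw [← hL] at h1 h2
  rw [Multiset.coe_card] at h2
  subst h2
  refine ⟨fun i => L[i.1], ?_⟩
  rw [h1, Fin.prod_univ_fun_getElem L (fun x => (X - C x : M[X]))]
  simp

theorem t_FAC : S_FAC := by
  intro K _ _ v k δ ε Q y w hk hδ hQ hd hsq hy hw hy1 a b c d l hdet hl hint
  have hw0 : w ≠ 0 := by
    rintro rfl
    rw [map_zero] at hw
    exact zero_ne_one hw
  have hcm := cover_monic_deg k Q hQ hd
  have hc2 : ((cover k Q).comp (X ^ 2)).natDegree = 4 * k := by
    rw [natDegree_comp, natDegree_X_pow, hcm.2]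
    ring
  have hd2 : (X ^ 2 - C w : K[X]).natDegree = 2 := natDegree_X_pow_sub_C
  have h2 : (X ^ 2 - C w : K[X]) ≠ 0 := by
    intro h; rw [h, natDegree_zero] at hd2; omega
  have h3 : ((cover k Q).comp (X ^ 2)) ≠ 0 := by
    intro h; rw [h, natDegree_zero] at hc2; omega
  have h0 : Q * (X ^ 2 - C w) * ((cover k Q).comp (X ^ 2)) ≠ 0 :=
    mul_ne_zero (mul_ne_zero hQ.ne_zero h2) h3
  obtain ⟨M, _, _, _, W, E, hc, hsplit⟩ := exists_compat
    (Q * (X ^ 2 - C w) * ((cover k Q).comp (X ^ 2))) v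
  set φ := algebraMap K M with hφ
  have h0' : (Q * (X ^ 2 - C w) * ((cover k Q).comp (X ^ 2))).map φ ≠ 0 := by
    rwa [Ne, Polynomial.map_eq_zero]
  have hs1 : (Q.map φ).Splits :=
    hsplit.of_dvd h0' (Polynomial.map_dvd _ ((dvd_mul_right _ _).mul_right _))
  have hs2 : ((X ^ 2 - C w : K[X]).map φ).Splits :=
    hsplit.of_dvd h0' (Polynomial.map_dvd _ ((dvd_mul_left _ _).mul_right _))
  have hs3 : (((cover k Q).comp (X ^ 2)).map φ).Splits :=
    hsplit.of_dvd h0' (Polynomial.map_dvd _ (dvd_mul_left _ _))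
  have h3' : ((cover k Q).comp (X ^ 2)).map φ ≠ 0 := by rwa [Ne, Polynomial.map_eq_zero]
  have key : ∀ p : M[X], p.natDegree ≠ 0 → p.degree ≠ 0 := fun p h h' =>
    h (natDegree_eq_of_degree_eq_some (by simpa using h'))
  obtain ⟨s, hs⟩ := hs2.exists_eval_eq_zero (key _ (by rw [natDegree_map, hd2]; omega))
  have hs' : s ^ 2 = φ w := by
    simp only [Polynomial.map_sub, Polynomial.map_pow, Polynomial.map_X, Polynomial.map_C,
      eval_sub, eval_pow, eval_X, eval_C] at hs
    linear_combination hs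
  obtain ⟨U, hU⟩ := exists_fin_roots (hQ.map φ) (by rw [natDegree_map, hd]) hs1
  have hcov : ((cover k Q).comp (X ^ 2)).map φ =
      ∏ i, ((X ^ 2 - 1) ^ 2 + C (4 * U i) * X ^ 2) := by
    rw [Polynomial.map_comp, cover_map, hU, cover_prod, Polynomial.prod_comp]
    simp only [Polynomial.map_pow, Polynomial.map_X, add_comp, mul_comp, pow_comp, sub_comp,
      X_comp, one_comp, C_comp]
  have hroot : ∀ i, ∃ θ : M, θ ^ 4 + (4 * U i - 2) * θ ^ 2 + 1 = 0 := by
    intro i
    have hdvd : ((X ^ 2 - 1) ^ 2 + C (4 * U i) * X ^ 2 : M[X]) ∣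
        ((cover k Q).comp (X ^ 2)).map φ := by
      rw [hcov]
      exact Finset.dvd_prod_of_mem _ (mem_univ i)
    have hsi := hs3.of_dvd h3' hdvd
    obtain ⟨θ, hθ⟩ := hsi.exists_eval_eq_zero (key _ (by
      have : ((X ^ 2 - 1) ^ 2 + C (4 * U i) * X ^ 2 : M[X]) =
          X ^ 4 + C (4 * U i - 2) * X ^ 2 + C 1 := by
        rw [C_sub, C_1, map_ofNat]
        ring
      rw [this]
      have : (X ^ 4 + C (4 * U i - 2) * X ^ 2 + C 1 : M[X]).natDegree = 4 := by
        compute_degree!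
      rw [this]
      norm_num))
    refine ⟨θ, ?_⟩
    simp only [eval_add, eval_mul, eval_pow, eval_sub, eval_X, eval_one, eval_C] at hθ
    linear_combination hθ
  choose θ hθ using hroot
  have hone : ∀ x : K, v.valuation K x = 1 → absW W (φ x) = 1 := by
    intro x hx
    have := hc.2 x 0 (by rw [hx, exp_zero])
    simpa using this
  have hge : ∀ x : K, 1 ≤ v.valuation K x → 1 ≤ absW W (φ x) := by
    intro x hx
    have := (hc.le_iff 1 x).mpr (by rwa [map_one])
    rwa [map_one, map_one] at this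
  have hdet' : φ a * φ d - φ b * φ c ≠ 0 := by
    rw [← map_mul, ← map_mul, ← map_sub, Ne, map_eq_zero]
    exact hdet
  have hl' : φ l ≠ 0 := by rwa [Ne, map_eq_zero]
  have hAs : absW W s = 1 := by
    have h1 : absW W s ^ 2 = 1 := by rw [← map_pow, hs', hone _ hw]
    exact (pow_eq_one_iff_of_nonneg ((absW W).nonneg _) (by omega)).mp h1
  have hy1' : 1 ≤ absW W (φ y) ∨ 1 ≤ absW W (φ y * ∏ i, U i) := by
    refine hy1.imp (hge _) fun h => ?_
    have h4 := hge _ h
    have h5 : φ (Q.coeff 0) = (-1) ^ k * ∏ i, U i := by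
      rw [← coeff_map, hU, coeff_zero_eq_eval_zero, eval_prod]
      simp only [eval_sub, eval_X, eval_C, zero_sub]
      rw [Finset.prod_neg]
      simp
    rw [map_mul, h5] at h4
    have h6 : absW W (φ y * ((-1) ^ k * ∏ i, U i)) = absW W (φ y * ∏ i, U i) := by
      simp only [map_mul, map_pow, AbsoluteValue.map_neg, map_one, one_pow, one_mul]
    rwa [h6] at h4
  have hmapB : ((base k δ Q).comp (X ^ 2)).map φ = (base k δ (∏ i, (X - C (U i)))).comp (X ^ 2) := by
    rw [Polynomial.map_comp, base_map, hU, Polynomial.map_pow, Polynomial.map_X]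
  have hsq' : Squarefree ((base k δ (∏ i, (X - C (U i)))).comp (X ^ 2)) := by
    rw [← hmapB]
    have hsep : ((base k δ Q).comp (X ^ 2)).Separable :=
      PerfectField.separable_iff_squarefree.mpr hsq
    exact hsep.map.squarefree
  have hmap : (K3h74.SZ.frm k δ ε Q y w).map φ =
      K3h74.SZ.frm k δ ε (∏ i, (X - C (U i))) (φ y) (φ w) := by
    rw [K3h74.SZ.frm, frmB_map, base_map, hU]
  have hmain := fac_local (A := absW W) (absW_na W) (δ := δ) (ε := ε) hk U θ (φ y) (φ w) s hθ hs'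
    hAs (by rwa [Ne, map_eq_zero]) hy1' hsq' hdet' hl'
  rw [← hmap] at hmain
  have hmap2 : C (φ l ^ 2) * act (2 * k + δ + (2 * k + δ)) (φ a) (φ b) (φ c) (φ d)
      ((K3h74.SZ.frm k δ ε Q y w).map φ) =
      (C (l ^ 2) * act (2 * k + δ + (2 * k + δ)) a b c d (K3h74.SZ.frm k δ ε Q y w)).map φ := by
    rw [Polynomial.map_mul, Polynomial.map_C, map_pow φ, act_map]
  rw [hmap2] at hmain
  have h5 := hmain ((hc.int_iff _).mpr hint)
  rw [discN_map, discN_map] at h5
  rw [← hc.le_iff]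
  refine le_trans (le_of_eq ?_) h5
  rw [← hφ, map_mul φ, map_mul (absW W), map_pow φ, map_pow (absW W)]
  simp only [map_pow, map_ofNat]

end Pool.Agent.K3h13.SZ
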