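import Pool.Agent.K3h74.SZ.Stm

namespace Pool.Agent.K3h13.SZ

open Polynomial Pool.Agent.W318 Pool.Agent.Y678.SZ Pool.Agent.K3h74.SZ Finset

section cov

variable {R : Type*} [CommRing R]

noncomputable def hsum (k : ℕ) (a b P : R[X]) : R[X] :=
  ∑ j ∈ range (k + 1), C (P.coeff j) * (a ^ j * b ^ (k - j))

theorem hsum_mul {k : ℕ} (a b P : R[X]) (u : R) (hP : P.natDegree ≤ k) :
    hsum (k + 1) a b ((X - C u) * P) = (a - C u * b) * hsum k a b P := by
  have h1 : hsum (k + 1) a b ((X - C u) * P) =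
      (∑ j ∈ range (k + 2), C ((X * P).coeff j) * (a ^ j * b ^ (k + 1 - j))) -
      ∑ j ∈ range (k + 2), C (u * P.coeff j) * (a ^ j * b ^ (k + 1 - j)) := by
    rw [hsum, ← sum_sub_distrib]
    refine sum_congr rfl fun j _ => ?_
    rw [sub_mul, coeff_sub, coeff_C_mul, C_sub, sub_mul]
  have h2 : P.coeff (k + 1) = 0 := coeff_eq_zero_of_natDegree_lt (by omega)
  rw [h1, sum_range_succ', sum_range_succ (fun j => C (u * P.coeff j) * (a ^ j * b ^ (k + 1 - j))),
    h2, coeff_X_mul_zero]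
  simp only [coeff_X_mul, mul_zero, C_0, zero_mul, add_zero]
  rw [sub_mul, hsum, mul_sum, mul_sum]
  congr 1
  · refine sum_congr rfl fun j hj => ?_
    rw [show k + 1 - (j + 1) = k - j by omega, pow_succ]
    ring
  · refine sum_congr rfl fun j hj => ?_
    rw [mem_range] at hj
    rw [show k + 1 - j = (k - j) + 1 by omega, pow_succ, C_mul]
    ring

theorem cover_prod [Nontrivial R] (k : ℕ) (U : Fin k → R) :
    cover k (∏ i, (X - C (U i))) = ∏ i, ((X - 1) ^ 2 + C (4 * U i) * X) := by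
  induction k with
  | zero => simp [cover]
  | succ k ih =>
    rw [Fin.prod_univ_succ, Fin.prod_univ_succ, ← ih]
    have h1 : (∏ i : Fin k, (X - C (U i.succ))).natDegree ≤ k := by
      rw [natDegree_prod_of_monic _ _ fun i _ => monic_X_sub_C _]
      simp
    have h2 := hsum_mul ((X - 1) ^ 2) (-4 * X) (∏ i : Fin k, (X - C (U i.succ))) (U 0) h1
    have h3 : ∀ (m : ℕ) (P : R[X]), cover m P = hsum m ((X - 1) ^ 2) (-4 * X) P :=
      fun m P => rfl
    rw [h3, h3, h2]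
    congr 1
    rw [C_mul, C_ofNat]
    ring

end cov

section loc

variable {M : Type*} [Field M] [CharZero M] {A : AbsoluteValue M ℝ}

theorem pair_one (hna : IsNonarchimedean A) {U θ : M}
    (hθ : θ ^ 4 + (4 * U - 2) * θ ^ 2 + 1 = 0) :
    ∃ σ : M, σ ^ 2 = 1 ∧ A 16 * max 1 (A U) ≤ A (θ - σ * θ⁻¹) ^ 2 := by
  have hζ : IsPrimitiveRoot (-1 : M) 2 := by
    refine IsPrimitiveRoot.neg_one 0 (by norm_num)
  have h16 : (4 * ((2 : ℕ) : M) ^ 2) = 16 := by norm_num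
  by_cases hU : A U ≤ 1
  · obtain ⟨t, ht⟩ := exists_pairing hna (le_refl 2) hζ (Y := 1) (T := U - 1) (θ := θ)
      one_ne_zero (by linear_combination hθ) (Or.inl (map_one _))
    refine ⟨(-1) ^ t, by rw [← pow_mul, mul_comm, pow_mul]; simp, ?_⟩
    rw [h16, map_one, one_mul] at ht
    rw [max_eq_left hU, mul_one]
    exact ht
  · push Not at hU
    have hU0 : U ≠ 0 := by
      rintro rfl
      rw [map_zero] at hU
      linarith
    have hpos : 0 < A U := A.pos hU0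
    have hi : A U⁻¹ < 1 := by rw [map_inv₀]; exact inv_lt_one_of_one_lt₀ hU
    have hT : A ((U - 1) / U) = 1 := by
      have e : (U - 1) / U = 1 - U⁻¹ := by field_simp
      rw [e, na_sub_eq hna (by rw [map_one]; exact hi), map_one]
    obtain ⟨t, ht⟩ := exists_pairing hna (le_refl 2) hζ (Y := U⁻¹) (T := (U - 1) / U) (θ := θ)
      (inv_ne_zero hU0) (by
        have e : U⁻¹ * θ ^ (2 + 2) + (2 * U⁻¹ + 4 * ((U - 1) / U)) * θ ^ 2 + U⁻¹ =
          U⁻¹ * (θ ^ 4 + (4 * U - 2) * θ ^ 2 + 1) := by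
          field_simp
          ring
        rw [e, hθ, mul_zero]) (Or.inr hT)
    refine ⟨(-1) ^ t, by rw [← pow_mul, mul_comm, pow_mul]; simp, ?_⟩
    rw [h16, map_inv₀] at ht
    rw [max_eq_right hU.le]
    calc A 16 * A U ≤ ((A U)⁻¹ * A (θ - (-1) ^ t * θ⁻¹) ^ 2) * A U :=
          mul_le_mul_of_nonneg_right ht hpos.le
      _ = _ := by field_simp

variable {k δ : ℕ}

def rL (θ : Fin k → M) : (Fin k × Bool) ⊕ Fin δ → M :=
  Sum.elim (fun p => if p.2 then θ p.1 else -θ p.1) (fun _ => 1)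

def rR (θ σ : Fin k → M) : (Fin k × Bool) ⊕ Fin δ → M :=
  Sum.elim (fun p => if p.2 then σ p.1 * (θ p.1)⁻¹ else -(σ p.1 * (θ p.1)⁻¹)) (fun _ => -1)

omit [CharZero M] in
theorem prod_id (U θ σ : Fin k → M) (s : M) (hθ : ∀ i, θ i ^ 4 + (4 * U i - 2) * θ i ^ 2 + 1 = 0)
    (hσ : ∀ i, σ i ^ 2 = 1) :
    (base k δ (∏ i, (X - C (U i)))).comp (C (s ^ 2) * X ^ 2) =
      (∏ x : (Fin k × Bool) ⊕ Fin δ, (C s * X + C (-(rL θ x)))) *
      ∏ x : (Fin k × Bool) ⊕ Fin δ, (C s * X + C (-(rR θ σ x))) := by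
  rw [base, cover_prod, Fintype.prod_sum_type, Fintype.prod_sum_type, Fintype.prod_prod_type,
    Fintype.prod_prod_type]
  simp only [Fintype.prod_bool, rL, rR, Sum.elim_inl, Sum.elim_inr, if_true, Bool.false_eq_true,
    if_false, prod_const, card_univ, Fintype.card_fin]
  rw [mul_comp, pow_comp, Polynomial.prod_comp]
  have h1 : ∀ i, ((X - 1) ^ 2 + C (4 * U i) * X : M[X]).comp (C (s ^ 2) * X ^ 2) =
      ((C s * X + C (-(θ i))) * (C s * X + C (-(-θ i)))) *
      ((C s * X + C (-(σ i * (θ i)⁻¹))) * (C s * X + C (-(-(σ i * (θ i)⁻¹))))) := by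
    intro i
    have hθ0 : θ i ≠ 0 := by
      intro h0
      have := hθ i
      rw [h0] at this
      norm_num at this
    have e1 : θ i ^ 2 + (θ i)⁻¹ ^ 2 = 2 - 4 * U i := by
      have := hθ i
      field_simp
      linear_combination this
    have e2 : (C (θ i) : M[X]) * C ((θ i)⁻¹) = 1 := by
      rw [← C_mul, mul_inv_cancel₀ hθ0, C_1]
    have e3 : (C (σ i) : M[X]) ^ 2 = 1 := by rw [← C_pow, hσ i, C_1]
    have e4 : (C (θ i) : M[X]) ^ 2 + C ((θ i)⁻¹) ^ 2 = 2 - 4 * C (U i) := by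
      rw [← C_pow, ← C_pow, ← C_add, e1, C_sub, C_mul, map_ofNat, map_ofNat]
    simp only [add_comp, mul_comp, pow_comp, sub_comp, X_comp, one_comp, C_comp, C_neg, C_mul,
      C_pow, map_ofNat, ofNat_comp, neg_neg]
    linear_combination (C s ^ 2 * X ^ 2) * e4 + (-C (θ i) * C ((θ i)⁻¹) - 1) * e2
      + (C s ^ 2 * X ^ 2 * C ((θ i)⁻¹) ^ 2 - (C (θ i) * C ((θ i)⁻¹)) ^ 2) * e3
  have h2 : ((X : M[X]) - 1).comp (C (s ^ 2) * X ^ 2) = (C s * X + C (-1)) * (C s * X + C (-(-1))) := by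
    simp only [sub_comp, X_comp, one_comp, C_neg, C_1, C_pow, neg_neg]
    ring
  rw [h2, prod_congr rfl fun i _ => h1 i, prod_mul_distrib, mul_pow]
  ring

end loc

end Pool.Agent.K3h13.SZ
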