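import Pool.Agent.K3h13.SZ.Fac1

namespace Pool.Agent.K3h13.SZ

open Polynomial Pool.Agent.W318 Pool.Agent.Y678.SZ Pool.Agent.K3h74.SZ Finset

section loc

variable {M : Type*} [Field M] [CharZero M] {A : AbsoluteValue M ℝ} {k δ : ℕ}

omit [CharZero M] in
theorem inj_of_squarefree {ι : Type*} [Fintype ι] (r : ι → M)
    (h : Squarefree (∏ i, (X + C (-(r i))) : M[X])) : Function.Injective r := by
  classical
  intro i j hij
  by_contra hne
  have hd : (X + C (-(r i)) : M[X]) * (X + C (-(r i))) ∣ ∏ i, (X + C (-(r i)) : M[X]) := by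
    rw [← Finset.mul_prod_erase univ _ (mem_univ i),
      ← Finset.mul_prod_erase (univ.erase i) _ (mem_erase.mpr ⟨Ne.symm hne, mem_univ j⟩), hij]
    exact ⟨∏ x ∈ (univ.erase i).erase j, (X + C (-(r x))), by ring⟩
  have hunit := h _ hd
  have h1 : (X + C (-(r i)) : M[X]).natDegree = 1 := natDegree_X_add_C _
  rw [natDegree_eq_zero_of_isUnit hunit] at h1
  omega

theorem fac_local (hna : IsNonarchimedean A) {ε : ℕ} (hk : 1 ≤ k)
    (U θ : Fin k → M) (y w s : M)
    (hθ : ∀ i, θ i ^ 4 + (4 * U i - 2) * θ i ^ 2 + 1 = 0)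
    (hs : s ^ 2 = w) (hs1 : A s = 1) (hy : y ≠ 0)
    (hy1 : 1 ≤ A y ∨ 1 ≤ A (y * ∏ i, U i))
    (hsq : Squarefree ((base k δ (∏ i, (X - C (U i)))).comp (X ^ 2)))
    {a b c d l : M} (hdet : a * d - b * c ≠ 0) (hl : l ≠ 0)
    (hint : (C (l ^ 2) * act (2 * k + δ + (2 * k + δ)) a b c d
      (frm k δ ε (∏ i, (X - C (U i))) y w)).gaussNorm A 1 ≤ 1) :
    A (discN (2 * k + δ + (2 * k + δ)) (C (l ^ 2) * act (2 * k + δ + (2 * k + δ)) a b c d
      (frm k δ ε (∏ i, (X - C (U i))) y w))) *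
      (A 16 ^ (2 * k + δ)) ^ (2 * (2 * k + δ + (2 * k + δ) - 1)) ≤
    A (discN (2 * k + δ + (2 * k + δ)) (frm k δ ε (∏ i, (X - C (U i))) y w)) := by
  choose σ hσ1 hσ using fun i => pair_one hna (hθ i)
  have hs0 : s ≠ 0 := by
    rintro rfl
    rw [map_zero] at hs1
    exact zero_ne_one hs1
  have hw0 : w ≠ 0 := by rw [← hs]; exact pow_ne_zero _ hs0
  have hAw : A w = 1 := by rw [← hs, map_pow, hs1, one_pow]
  set h := 2 * k + δ with hh
  have hcard : Fintype.card (Fin h) = Fintype.card ((Fin k × Bool) ⊕ Fin δ) := by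
    simp [hh]
    ring
  let e0 : Fin h ≃ (Fin k × Bool) ⊕ Fin δ := Fintype.equivOfCardEq hcard
  set ρ : Fin h ⊕ Fin h → M := Sum.elim (fun i => rL θ (e0 i)) (fun i => rR θ σ (e0 i)) with hρ
  have hprod : ∀ t : M, ∏ x : Fin h ⊕ Fin h, (C t * X + C (-(ρ x))) =
      (base k δ (∏ i, (X - C (U i)))).comp (C (t ^ 2) * X ^ 2) := by
    intro t
    rw [prod_id U θ σ t hθ hσ1, Fintype.prod_sum_type]
    simp only [hρ, Sum.elim_inl, Sum.elim_inr]
    rw [Equiv.prod_comp e0 (fun x => (C t * X + C (-(rL θ x)) : M[X])),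
      Equiv.prod_comp e0 (fun x => (C t * X + C (-(rR θ σ x)) : M[X]))]
  have hinj : Function.Injective ρ := by
    apply inj_of_squarefree
    have h1 := hprod 1
    rw [one_pow, C_1, one_mul] at h1
    simp only [one_mul] at h1
    rw [h1]
    exact hsq
  set u : M := w ^ ε * y with hu
  have hu0 : u ≠ 0 := mul_ne_zero (pow_ne_zero _ hw0) hy
  have hAu : A u = A y := by rw [hu, map_mul, map_pow, hAw, one_pow, one_mul]
  have hfac : frm k δ ε (∏ i, (X - C (U i))) y w =
      C u * ∏ i : Fin (h + h), (C ((fun _ => s) i) * X +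
        C ((fun j => -ρ (finSumFinEquiv.symm j)) i)) := by
    have h2 := hprod s
    rw [hs] at h2
    rw [← Equiv.prod_comp finSumFinEquiv]
    simp only [Equiv.symm_apply_apply]
    rw [h2]
    rfl
  rw [hfac] at hint ⊢
  refine compare_disc hna hu0 ?_ (by omega) finSumFinEquiv (pow_nonneg (A.nonneg _) _) ?_ hdet hl
    hint
  · intro i j hij h0
    have h1 : s * (ρ (finSumFinEquiv.symm i) - ρ (finSumFinEquiv.symm j)) = 0 := by
      linear_combination h0
    have h2 := (mul_eq_zero.mp h1).resolve_left hs0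
    exact hij (finSumFinEquiv.symm.injective (hinj (sub_eq_zero.mp h2)))
  · have e2 : ∀ i : Fin h, A ((fun _ : Fin (h + h) => s) (finSumFinEquiv (Sum.inl i)) *
        (fun j : Fin (h + h) => -ρ (finSumFinEquiv.symm j)) (finSumFinEquiv (Sum.inr i)) -
        (fun _ : Fin (h + h) => s) (finSumFinEquiv (Sum.inr i)) *
        (fun j : Fin (h + h) => -ρ (finSumFinEquiv.symm j)) (finSumFinEquiv (Sum.inl i))) =
        A (rL θ (e0 i) - rR θ σ (e0 i)) := by
      intro i
      simp only [Equiv.symm_apply_apply]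
      have : s * -ρ (Sum.inr i) - s * -ρ (Sum.inl i) = s * (rL θ (e0 i) - rR θ σ (e0 i)) := by
        simp only [hρ, Sum.elim_inl, Sum.elim_inr]
        ring
      rw [this, map_mul, hs1, one_mul]
    rw [hAu, Finset.prod_congr rfl fun i _ => e2 i,
      Equiv.prod_comp e0 (fun x => A (rL θ x - rR θ σ x)), Fintype.prod_sum_type,
      Fintype.prod_prod_type]
    simp only [Fintype.prod_bool, rL, rR, Sum.elim_inl, Sum.elim_inr, if_true, Bool.false_eq_true,
      if_false, prod_const, card_univ, Fintype.card_fin]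
    have hA2 : A (2 : M) ≤ 1 := by
      have := abs_natCast_le_one (A := A) hna 2
      simpa using this
    have hA16 : A (16 : M) ≤ 1 := by
      have := abs_natCast_le_one (A := A) hna 16
      simpa using this
    have h162 : A (16 : M) ≤ A 2 := by
      have : (16 : M) = 2 * (2 * (2 * 2)) := by norm_num
      rw [this, map_mul, map_mul, map_mul]
      have hn := A.nonneg (2 : M)
      have h1 : A (2 : M) * (A 2 * A 2) ≤ 1 := by
        calc A (2 : M) * (A 2 * A 2) ≤ 1 * (1 * 1) := by gcongr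
          _ = 1 := by norm_num
      calc A (2 : M) * (A 2 * (A 2 * A 2)) ≤ A 2 * 1 := mul_le_mul_of_nonneg_left h1 hn
        _ = _ := mul_one _
    have e3 : ∀ i, A (θ i - σ i * (θ i)⁻¹) * A (-θ i - -(σ i * (θ i)⁻¹)) =
        A (θ i - σ i * (θ i)⁻¹) ^ 2 := by
      intro i
      rw [show -θ i - -(σ i * (θ i)⁻¹) = -(θ i - σ i * (θ i)⁻¹) by ring, A.map_neg, sq]
    rw [prod_congr rfl fun i _ => e3 i, show (1 : M) - -1 = 2 by norm_num]
    have h5 : ∏ i : Fin k, (A 16 * max 1 (A (U i))) ≤ ∏ i, A (θ i - σ i * (θ i)⁻¹) ^ 2 :=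
      prod_le_prod (fun i _ => mul_nonneg (A.nonneg _) (le_max_of_le_left zero_le_one))
        fun i _ => hσ i
    rw [prod_mul_distrib, prod_const, card_univ, Fintype.card_fin] at h5
    have h6 : 1 ≤ A y * ∏ i, max 1 (A (U i)) := by
      rcases hy1 with h | h
      · have h7 : 1 ≤ ∏ i, max 1 (A (U i)) := by
          have : (1 : ℝ) = ∏ _i : Fin k, (1 : ℝ) := by simp
          calc (1 : ℝ) = ∏ _i : Fin k, (1 : ℝ) := this
            _ ≤ _ := prod_le_prod (fun _ _ => zero_le_one) fun i _ => le_max_left _ _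
        calc (1 : ℝ) = 1 * 1 := by norm_num
          _ ≤ _ := mul_le_mul h h7 zero_le_one (A.nonneg _)
      · refine h.trans ?_
        rw [map_mul, map_prod]
        exact mul_le_mul_of_nonneg_left (prod_le_prod (fun _ _ => A.nonneg _)
          fun i _ => le_max_right _ _) (A.nonneg _)
    have hn16 := A.nonneg (16 : M)
    have h8 : A (16 : M) ^ (2 * k + δ) ≤ A 16 ^ k * A 2 ^ δ := by
      rw [show 2 * k + δ = k + (k + δ) by ring, pow_add, pow_add (A (16 : M)) k δ]
      have h9 : A (16 : M) ^ k * A 16 ^ δ ≤ 1 * A 2 ^ δ :=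
        mul_le_mul (pow_le_one₀ hn16 hA16) (pow_le_pow_left₀ hn16 h162 _) (pow_nonneg hn16 _)
          zero_le_one
      calc A (16 : M) ^ k * (A 16 ^ k * A 16 ^ δ) ≤ A 16 ^ k * (1 * A 2 ^ δ) :=
            mul_le_mul_of_nonneg_left h9 (pow_nonneg hn16 _)
        _ = _ := by ring
    calc A (16 : M) ^ (2 * k + δ) ≤ A 16 ^ k * A 2 ^ δ := h8
      _ = (A 16 ^ k * A 2 ^ δ) * 1 := (mul_one _).symm
      _ ≤ (A 16 ^ k * A 2 ^ δ) * (A y * ∏ i, max 1 (A (U i))) :=
          mul_le_mul_of_nonneg_left h6 (mul_nonneg (pow_nonneg hn16 _)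
            (pow_nonneg (A.nonneg _) _))
      _ = A y * ((A 16 ^ k * ∏ i, max 1 (A (U i))) * A 2 ^ δ) := by ring
      _ ≤ A y * ((∏ i, A (θ i - σ i * (θ i)⁻¹) ^ 2) * A 2 ^ δ) :=
          mul_le_mul_of_nonneg_left (mul_le_mul_of_nonneg_right h5 (pow_nonneg (A.nonneg _) _))
            (A.nonneg _)

end loc

end Pool.Agent.K3h13.SZ
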